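import Pool.Agent.Helper90.TS.Stmts

/-!
# TS: module DEF, definability of rank
-/

set_option autoImplicit false

namespace Pool.Agent.Helper90.TS

/-- fiber -/
def def_fib {V κ ι : Type} (E : Set (κ ⊕ ι → V)) (z : κ → V) : Set (ι → V) :=
  {x | Sum.elim z x ∈ E}

/-- local rank -/
def def_R {V κ ι : Type} (Z : Set (κ → V)) (E : Set (κ ⊕ ι → V)) : ℕ → Set (ι → V) → Prop
  | 0, K => K.Nonempty
  | (k + 1), K => ∃ z ∈ Z, def_R Z E k (K ∩ def_fib E z) ∧ def_R Z E k (K \ def_fib E z)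

section

variable {V G : Type} [Group G] [MulAction G V] {X : Ctx V G} {κ ι : Type} [Finite κ] [Finite ι]
  {Z : Set (κ → V)} {E : Set (κ ⊕ ι → V)}

omit [Finite κ] [Finite ι] in
theorem def_R_mono (k : ℕ) : ∀ K L : Set (ι → V), K ⊆ L → def_R Z E k K → def_R Z E k L := by
  induction k with
  | zero => intro K L h hK; exact Set.Nonempty.mono h hK
  | succ k ih =>
    rintro K L h ⟨z, hz, h1, h2⟩
    exact ⟨z, hz, ih _ _ (Set.inter_subset_inter_left _ h) h1,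
      ih _ _ (Set.sdiff_subset_sdiff_left h) h2⟩

omit [Finite κ] [Finite ι] in
theorem def_R_succ (k : ℕ) (K : Set (ι → V)) (h : def_R Z E (k + 1) K) : def_R Z E k K := by
  obtain ⟨z, _, h1, _⟩ := h
  exact def_R_mono k _ _ Set.inter_subset_left h1

omit [Finite κ] [Finite ι] in
theorem def_R_le {k l : ℕ} (hkl : k ≤ l) (K : Set (ι → V)) (h : def_R Z E l K) :
    def_R Z E k K := by
  induction l with
  | zero =>
    have : k = 0 := by omega
    subst this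
    exact h
  | succ l ih =>
    rcases Nat.lt_or_ge l k with h1 | h1
    · have : k = l + 1 := by omega
      subst this
      exact h
    · exact ih h1 (def_R_succ l K h)

/-- Claim A -/
theorem def_A (hZ : X.Ov (Set.univ : Set V) Z) (hE : X.Ov (Set.univ : Set V) E) (k : ℕ) :
    ∀ (lam : Type) [Finite lam] (W : Set (lam → V)) (K : Set (lam ⊕ ι → V)),
      X.Ov (Set.univ : Set V) W → X.Ov (Set.univ : Set V) K →
      X.Ov (Set.univ : Set V) {w | w ∈ W ∧ def_R Z E k (def_fib K w)} := by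
  induction k with
  | zero =>
    intro lam _ W K hW hK
    have h1 := ov_inter hW (ov_ex hK)
    exact h1
  | succ k ih =>
    intro lam _ W K hW hK
    have e1 : ∀ (w : lam → V) (z : κ → V) (x : ι → V),
        (Sum.elim (Sum.elim w z) x) ∘ (Sum.map Sum.inl id : lam ⊕ ι → (lam ⊕ κ) ⊕ ι) =
          Sum.elim w x := by
      intro w z x
      ext i
      cases i <;> rfl
    have e2 : ∀ (w : lam → V) (z : κ → V) (x : ι → V),
        (Sum.elim (Sum.elim w z) x) ∘ (Sum.map Sum.inr id : κ ⊕ ι → (lam ⊕ κ) ⊕ ι) =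
          Sum.elim z x := by
      intro w z x
      ext i
      cases i <;> rfl
    have hB := ov_prod (ov_prod hW hZ) (ov_exr hK)
    have hS1 := ov_sub hK hB (Sum.map Sum.inl id)
    have hS2 := ov_sub hE hB (Sum.map Sum.inr id)
    obtain ⟨K1, hK1, hK1e⟩ : ∃ K1 : Set ((lam ⊕ κ) ⊕ ι → V), X.Ov (Set.univ : Set V) K1 ∧
        ∀ w z, w ∈ W → z ∈ Z → def_fib K1 (Sum.elim w z) = def_fib K w ∩ def_fib E z := by
      refine ⟨_, ov_inter hS1 hS2, ?_⟩
      intro w z hw hz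
      ext x
      simp only [def_fib, Set.mem_ofPred_eq, Set.mem_inter_iff, Sum.elim_comp_inl,
        Sum.elim_comp_inr, e1, e2]
      constructor
      · rintro ⟨⟨_, h3⟩, ⟨_, h4⟩⟩
        exact ⟨h3, h4⟩
      · rintro ⟨h3, h4⟩
        exact ⟨⟨⟨⟨hw, hz⟩, ⟨w, h3⟩⟩, h3⟩, ⟨⟨⟨hw, hz⟩, ⟨w, h3⟩⟩, h4⟩⟩
    obtain ⟨K2, hK2, hK2e⟩ : ∃ K2 : Set ((lam ⊕ κ) ⊕ ι → V), X.Ov (Set.univ : Set V) K2 ∧
        ∀ w z, w ∈ W → z ∈ Z → def_fib K2 (Sum.elim w z) = def_fib K w \ def_fib E z := by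
      refine ⟨_, ov_diff hS1 hS2, ?_⟩
      intro w z hw hz
      ext x
      simp only [def_fib, Set.mem_ofPred_eq, Set.mem_sdiff, Sum.elim_comp_inl,
        Sum.elim_comp_inr, e1, e2]
      constructor
      · rintro ⟨⟨h3, h4⟩, h5⟩
        exact ⟨h4, fun h6 => h5 ⟨h3, h6⟩⟩
      · rintro ⟨h3, h4⟩
        exact ⟨⟨⟨⟨hw, hz⟩, ⟨w, h3⟩⟩, h3⟩, fun h5 => h4 h5.2⟩
    obtain ⟨WZ, hWZ, hWZe⟩ : ∃ WZ : Set (lam ⊕ κ → V), X.Ov (Set.univ : Set V) WZ ∧
        ∀ w z, Sum.elim w z ∈ WZ ↔ w ∈ W ∧ z ∈ Z := by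
      refine ⟨_, ov_prod hW hZ, ?_⟩
      intro w z
      simp only [Set.mem_ofPred_eq, Sum.elim_comp_inl, Sum.elim_comp_inr]
    have h1 := ov_ex (ov_inter (ih (lam ⊕ κ) _ _ hWZ hK1) (ih (lam ⊕ κ) _ _ hWZ hK2))
    refine Eq.mp (congrArg _ ?_) h1
    ext w
    constructor
    · rintro ⟨z, ⟨h2, h3⟩, ⟨_, h4⟩⟩
      obtain ⟨hw, hz⟩ := (hWZe w z).1 h2
      rw [hK1e w z hw hz] at h3
      rw [hK2e w z hw hz] at h4
      exact ⟨hw, z, hz, h3, h4⟩
    · rintro ⟨hw, z, hz, h3, h4⟩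
      rw [← hK1e w z hw hz] at h3
      rw [← hK2e w z hw hz] at h4
      exact ⟨z, ⟨(hWZe w z).2 ⟨hw, hz⟩, h3⟩, ⟨(hWZe w z).2 ⟨hw, hz⟩, h4⟩⟩

/-- Claim A for the sections of one set -/
theorem def_A1 (hZ : X.Ov (Set.univ : Set V) Z) (hE : X.Ov (Set.univ : Set V) E) (k : ℕ)
    (K : Set (ι → V)) (hK : X.Ov (Set.univ : Set V) K) :
    X.Ov (Set.univ : Set V) {z | z ∈ Z ∧ def_R Z E k (K ∩ def_fib E z)} ∧
    X.Ov (Set.univ : Set V) {z | z ∈ Z ∧ def_R Z E k (K \ def_fib E z)} := by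
  have hB := ov_prod hZ hK
  have h1 := def_A hZ hE k κ Z _ hZ (ov_inter hB hE)
  have h2 := def_A hZ hE k κ Z _ hZ (ov_diff hB hE)
  refine ⟨Eq.mp (congrArg _ ?_) h1, Eq.mp (congrArg _ ?_) h2⟩
  · ext z
    refine and_congr_right fun hz => ?_
    have : def_fib ({x : κ ⊕ ι → V | x ∘ Sum.inl ∈ Z ∧ x ∘ Sum.inr ∈ K} ∩ E) z =
        K ∩ def_fib E z := by
      ext x
      simp only [def_fib, Set.mem_ofPred_eq, Set.mem_inter_iff, Sum.elim_comp_inl,
        Sum.elim_comp_inr, hz, true_and]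
    rw [this]
  · ext z
    refine and_congr_right fun hz => ?_
    have : def_fib ({x : κ ⊕ ι → V | x ∘ Sum.inl ∈ Z ∧ x ∘ Sum.inr ∈ K} \ E) z =
        K \ def_fib E z := by
      ext x
      simp only [def_fib, Set.mem_ofPred_eq, Set.mem_sdiff, Sum.elim_comp_inl,
        Sum.elim_comp_inr, hz, true_and]
    rw [this]

theorem def_fib_ov (hE : X.Ov (Set.univ : Set V) E) (z : κ → V) :
    X.Ov (Set.univ : Set V) (def_fib E z) :=
  ov_sec' hE (Set.subset_univ _)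

/-- Claim B -/
theorem def_B (hT : ST_TREE) (hZ : X.Ov (Set.univ : Set V) Z) (hE : X.Ov (Set.univ : Set V) E)
    (K : Set (ι → V)) (hK : X.Ov (Set.univ : Set V) K) : ∃ k, ¬ def_R Z E k K := by
  by_contra hcon
  push Not at hcon
  refine hT V G X ι (fun K => X.Ov (Set.univ : Set V) K ∧ ∀ k, def_R Z E k K) ?_ K ⟨hK, hcon⟩
  rintro D ⟨hD, hR⟩
  refine ⟨hD.1, hR 0, ?_⟩
  obtain ⟨z, hz⟩ := X.sat κ (fun k => {z | z ∈ Z ∧ def_R Z E k (D ∩ def_fib E z)} ∩
      {z | z ∈ Z ∧ def_R Z E k (D \ def_fib E z)}) (by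
    intro k
    exact (ov_inter (def_A1 hZ hE k D hD).1 (def_A1 hZ hE k D hD).2).1) (by
    intro k
    obtain ⟨z, hz, h1, h2⟩ := hR (k + 1)
    refine ⟨z, fun i hi => ⟨⟨hz, def_R_le (by omega) _ h1⟩, ⟨hz, def_R_le (by omega) _ h2⟩⟩⟩)
  refine ⟨D ∩ def_fib E z, D \ def_fib E z, Set.inter_subset_left, Set.sdiff_subset, ?_,
    ⟨ov_inter hD (def_fib_ov hE z), fun k => (hz k).1.2⟩,
    ⟨ov_diff hD (def_fib_ov hE z), fun k => (hz k).2.2⟩⟩
  rw [Set.disjoint_left]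
  rintro x ⟨_, h1⟩ ⟨_, h2⟩
  exact h2 h1

/-- the case of degree one -/
theorem def_dg1 (hT : ST_TREE) (hRB : ST_RBAS) (hRU : ST_RUN) (α : Ordinal.{0})
    (D : Set (ι → V)) (hD : X.Dg1 α D) (hE : X.Ov (Set.univ : Set V) E) :
    X.Ov (Set.univ : Set V) {z : κ → V | X.Rge α (D ∩ def_fib E z)} := by
  classical
  obtain ⟨hR1, hR2, hR3⟩ := hD
  obtain ⟨b1, b2, _, b4, _⟩ := hRB V G X ι
  have hDd : X.Ov (Set.univ : Set V) D := (ov_univ_iff X).2 ((rge_iff X α D).1 hR1).1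
  have hne : ∀ K : Set (ι → V), X.Rge α K → K.Nonempty := fun K h => ((rge_iff X α K).1 h).2.1
  have hZ0 : X.Ov (Set.univ : Set V) {z : κ → V | ∃ x : ι → V, Sum.elim z x ∈
      {w : κ ⊕ ι → V | w ∈ E ∧ w ∘ Sum.inr ∈ D}} := ov_ex (ov_sub hDd hE Sum.inr)
  set Z : Set (κ → V) := {z : κ → V | ∃ x : ι → V, Sum.elim z x ∈
      {w : κ ⊕ ι → V | w ∈ E ∧ w ∘ Sum.inr ∈ D}} with hZdef
  have hZne : ∀ z : κ → V, (D ∩ def_fib E z).Nonempty → z ∈ Z := by
    rintro z ⟨x, h1, h2⟩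
    exact ⟨x, h2, by rw [Sum.elim_comp_inr]; exact h1⟩
  -- dichotomy
  have hdich : ∀ K L : Set (ι → V), X.Ov (Set.univ : Set V) K → X.Ov (Set.univ : Set V) L →
      X.Rge α K → X.Rge α (K ∩ L) ∨ X.Rge α (K \ L) := by
    intro K L hK hL h
    refine (hRU V G X ι α).1 _ _ (ov_inter hK hL).1 (ov_diff hK hL).1 ?_
    rwa [Set.inter_union_sdiff]
  have hex : ∃ r : ℕ, ∃ K : Set (ι → V), K ⊆ D ∧ X.Rge α K ∧ def_R Z E r K ∧
      ¬ def_R Z E (r + 1) K := by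
    have h1 := def_B hT hZ0 hE D hDd
    have h2 := Nat.find_spec h1
    have h3 : Nat.find h1 ≠ 0 := by
      intro h0
      rw [h0] at h2
      exact h2 (hne D hR1)
    obtain ⟨r, hr⟩ := Nat.exists_eq_succ_of_ne_zero h3
    refine ⟨r, D, Set.Subset.rfl, hR1, ?_, ?_⟩
    · by_contra h4
      exact Nat.find_min h1 (by omega) h4
    · rw [hr] at h2
      exact h2
  obtain ⟨K0, hK0D, hK0R, hK0a, hK0b⟩ := Nat.find_spec hex
  have hmin : ∀ m < Nat.find hex, ¬ ∃ K : Set (ι → V), K ⊆ D ∧ X.Rge α K ∧ def_R Z E m K ∧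
      ¬ def_R Z E (m + 1) K := fun m hm => Nat.find_min hex hm
  set r := Nat.find hex with hrdef
  have hK0 : X.Ov (Set.univ : Set V) K0 := (ov_univ_iff X).2 ((rge_iff X α K0).1 hK0R).1
  have hbig : ∀ K : Set (ι → V), K ⊆ D → X.Rge α K → def_R Z E r K := by
    intro K hKD hK
    have hKd : X.Ov (Set.univ : Set V) K := (ov_univ_iff X).2 ((rge_iff X α K).1 hK).1
    have h1 := def_B hT hZ0 hE K hKd
    have h2 := Nat.find_spec h1
    have h3 : Nat.find h1 ≠ 0 := by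
      intro h0
      rw [h0] at h2
      exact h2 (hne K hK)
    obtain ⟨r', hr'⟩ := Nat.exists_eq_succ_of_ne_zero h3
    have h4 : def_R Z E r' K := by
      by_contra h4
      exact Nat.find_min h1 (by omega) h4
    rw [hr'] at h2
    have h5 : r ≤ r' := by
      by_contra h6
      exact hmin r' (by omega) ⟨K, hKD, hK, h4, h2⟩
    exact def_R_le h5 K h4
  have hmain : {z : κ → V | X.Rge α (D ∩ def_fib E z)} =
      {z | z ∈ Z ∧ def_R Z E r (K0 ∩ def_fib E z)} := by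
    ext z
    have hEz := def_fib_ov hE z
    constructor
    · intro hz
      refine ⟨hZne z (hne _ hz), ?_⟩
      refine hbig _ (Set.inter_subset_left.trans hK0D) ?_
      rcases hdich K0 _ hK0 hEz hK0R with h | h
      · exact h
      · refine (hR3 (D ∩ def_fib E z) (K0 \ def_fib E z) Set.inter_subset_left
          (Set.sdiff_subset.trans hK0D) ?_ hz h).elim
        rw [Set.disjoint_left]
        rintro x ⟨_, h1⟩ ⟨_, h2⟩
        exact h2 h1
    · rintro ⟨hz, h1⟩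
      by_contra h2
      have h3 : X.Rge α (K0 \ def_fib E z) := by
        rcases hdich K0 _ hK0 hEz hK0R with h | h
        · exact (h2 (b1 α _ _ (ov_inter hDd hEz).1 (Set.inter_subset_inter_left _ hK0D) h)).elim
        · exact h
      exact hK0b ⟨z, hz, h1, hbig _ (Set.sdiff_subset.trans hK0D) h3⟩
  rw [hmain]
  exact (def_A1 hZ0 hE r K0 hK0).1

end

theorem st_DEF (hT : ST_TREE) (hRB : ST_RBAS) (hRU : ST_RUN) (hRD : ST_RDEG) : ST_DEF := by
  intro V G _ _ X κ ι _ _ α D E hD hDs hE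
  obtain ⟨b1, _⟩ := hRB V G X ι
  have hE' : X.Ov (Set.univ : Set V) E := (ov_univ_iff X).2 hE
  by_cases hDα : X.Rge α D
  · obtain ⟨m, F, _, hF, hDF, _, _⟩ := hRD V G X ι α D hDα hDs
    have h1 : {z : κ → V | X.Rge α (D ∩ {x | Sum.elim z x ∈ E})} =
        ⋃ i, {z : κ → V | X.Rge α (F i ∩ def_fib E z)} := by
      ext z
      simp only [Set.mem_ofPred_eq, Set.mem_iUnion]
      have hEz : X.Ov (Set.univ : Set V) {x | Sum.elim z x ∈ E} := def_fib_ov hE' z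
      have hFd : ∀ i, X.Ov (Set.univ : Set V) (F i) := fun i =>
        (ov_univ_iff X).2 ((rge_iff X α _).1 (hF i).1).1
      constructor
      · intro h
        rw [hDF, Set.iUnion_inter] at h
        exact (hRU V G X ι α).2 (Fin m) _ (fun i => (ov_inter (hFd i) hEz).1) h
      · rintro ⟨i, h⟩
        refine b1 α _ _ (ov_inter ((ov_univ_iff X).2 hD) hEz).1 ?_ h
        refine Set.inter_subset_inter_left _ ?_
        rw [hDF]
        exact Set.subset_iUnion F i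
    rw [h1]
    exact (ov_iUnion (X := X) fun i => def_dg1 hT hRB hRU α (F i) (hF i) hE').1
  · have h1 : {z : κ → V | X.Rge α (D ∩ {x | Sum.elim z x ∈ E})} = ∅ := by
      ext z
      simp only [Set.mem_ofPred_eq, Set.mem_empty_iff_false, iff_false]
      intro h
      exact hDα (b1 α _ _ hD Set.inter_subset_left h)
    rw [h1]
    exact X.empty κ

end Pool.Agent.Helper90.TS
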