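import Pool.Agent.Helper90.TS.Stmts

/-!
# TS: module FSU2
-/

set_option autoImplicit false

namespace Pool.Agent.Helper90.TS

theorem st_FSU2 (hF : ST_FSUP) : ST_FSU2 := by
  classical
  intro V G _ _ X A hA κ ι _ _ b D hD
  have hc : (A ∪ Set.range b).Countable := hA.union (Set.finite_range b).countable
  obtain ⟨m, c, E, hcr, hE, hDE⟩ := hF V G X (A ∪ Set.range b) hc ι D hD
  let cJ : {j : Fin m // c j ∈ A} → V := fun j => c j.1
  have hτ : ∀ j : Fin m, ∃ t : {j : Fin m // c j ∈ A} ⊕ κ, Sum.elim cJ b t = c j := by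
    intro j
    rcases hcr ⟨j, rfl⟩ with h | ⟨k, hk⟩
    · exact ⟨Sum.inl ⟨j, h⟩, rfl⟩
    · exact ⟨Sum.inr k, hk⟩
  choose τ0 hτ0 using hτ
  obtain ⟨B1, hB1, hb1⟩ := ov_sort (X := X) cJ
  obtain ⟨B2, hB2, hb2⟩ := ov_sort (X := X) b
  obtain ⟨B3, hB3, hb3⟩ := ov_cover (X := X) hD.1
  have hB := ov_prod hB1 (ov_prod hB2 hB3)
  let τ : Fin m ⊕ ι → {j : Fin m // c j ∈ A} ⊕ (κ ⊕ ι) :=
    Sum.elim (fun j => Sum.elim Sum.inl (Sum.inr ∘ Sum.inl) (τ0 j)) (Sum.inr ∘ Sum.inr)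
  have hτe : ∀ x : ι → V, (Sum.elim cJ (Sum.elim b x)) ∘ τ = Sum.elim c x := by
    intro x
    ext i
    rcases i with j | i
    · have h1 := hτ0 j
      simp only [Function.comp, τ, Sum.elim_inl]
      rw [← h1]
      cases τ0 j <;> rfl
    · rfl
  have h1 := ov_sub hE hB τ
  have h2 : X.Ov A _ := ov_sec' (ov_mono X (Set.empty_subset A) h1) (a := cJ) (by
    rintro _ ⟨j, rfl⟩
    exact j.2)
  refine ⟨_, h2, ?_⟩
  ext x
  simp only [Set.mem_ofPred_eq, Sum.elim_comp_inl, Sum.elim_comp_inr]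
  rw [hτe]
  constructor
  · intro hx
    refine ⟨⟨hb1, hb2, hb3 hx⟩, ?_⟩
    rw [hDE] at hx
    exact hx
  · rintro ⟨_, hx⟩
    rw [hDE]
    exact hx

end Pool.Agent.Helper90.TS
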