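import Pool.Agent.Helper90.TS.Stmts

/-!
# TS: module FSUP, finite supports
-/

set_option autoImplicit false

namespace Pool.Agent.Helper90.TS

section

variable {V G : Type} [Group G] [MulAction G V] {X : Ctx V G}

/-- sections at initial segments of `s` -/
def fsup_sec (s : ℕ → V) {κ : Type} (n : ℕ) (H : Set (Fin n ⊕ κ → V)) : Set (κ → V) :=
  {y | Sum.elim (fun i : Fin n => s i) y ∈ H}

/-- the family of sections containing `u` -/
def fsup_fam (X : Ctx V G) (s : ℕ → V) {κ : Type} (u : κ → V) (W0 : Set (κ → V)) :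
    Set (Set (κ → V)) :=
  {W | ∃ (n : ℕ) (H : Set (Fin n ⊕ κ → V)), X.Ov (∅ : Set V) H ∧ W = fsup_sec s n H ∧ u ∈ W ∧
    W ⊆ W0}

theorem fsup_countable (s : ℕ → V) {κ : Type} [Finite κ] (u : κ → V) (W0 : Set (κ → V)) :
    (fsup_fam X s u W0).Countable := by
  have h : fsup_fam X s u W0 ⊆ ⋃ n : ℕ, fsup_sec s n '' {H | H ∈ X.Df (Fin n ⊕ κ) ∧
      Inv (⊤ : Subgroup G) H} := by
    rintro W ⟨n, H, h1, rfl, _, _⟩
    exact Set.mem_iUnion.2 ⟨n, H, (ov_empty_iff X).1 h1, rfl⟩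
  exact (Set.countable_iUnion fun n => (X.cnt (Fin n ⊕ κ)).image _).mono h

theorem fsup_box (s : ℕ → V) {κ : Type} [Finite κ] {u : κ → V} {W0 : Set (κ → V)}
    (hW : X.Ov (∅ : Set V) W0) (hu : u ∈ W0) (n : ℕ) :
    ∃ B : Set (Fin n ⊕ κ → V), X.Ov (∅ : Set V) B ∧ Sum.elim (fun i : Fin n => s i) u ∈ B ∧
      ∀ y, Sum.elim (fun i : Fin n => s i) y ∈ B → y ∈ W0 := by
  obtain ⟨B, hB, hb⟩ := ov_sort (X := X) (fun i : Fin n => s i)
  refine ⟨_, ov_prod hB hW, ⟨?_, ?_⟩, ?_⟩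
  · rw [Sum.elim_comp_inl]; exact hb
  · rw [Sum.elim_comp_inr]; exact hu
  · intro y hy
    have := hy.2
    rwa [Sum.elim_comp_inr] at this

theorem fsup_dir (s : ℕ → V) {κ : Type} [Finite κ] {u : κ → V} {W0 : Set (κ → V)}
    (hW : X.Ov (∅ : Set V) W0) (hu : u ∈ W0) {W1 W2 : Set (κ → V)}
    (h1 : W1 ∈ fsup_fam X s u W0) (h2 : W2 ∈ fsup_fam X s u W0) :
    ∃ W ∈ fsup_fam X s u W0, W ⊆ W1 ∧ W ⊆ W2 := by
  obtain ⟨n1, H1, hH1, rfl, hu1, hs1⟩ := h1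
  obtain ⟨n2, H2, hH2, rfl, hu2, hs2⟩ := h2
  obtain ⟨B, hB, hb, hb'⟩ := fsup_box (X := X) s hW hu (max n1 n2)
  have e1 : ∀ y : κ → V, (Sum.elim (fun i : Fin (max n1 n2) => s i) y) ∘
      (Sum.map (Fin.castLE (le_max_left n1 n2)) id) = Sum.elim (fun i : Fin n1 => s i) y := by
    intro y
    ext i
    cases i <;> rfl
  have e2 : ∀ y : κ → V, (Sum.elim (fun i : Fin (max n1 n2) => s i) y) ∘
      (Sum.map (Fin.castLE (le_max_right n1 n2)) id) = Sum.elim (fun i : Fin n2 => s i) y := by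
    intro y
    ext i
    cases i <;> rfl
  refine ⟨_, ⟨max n1 n2, _, ov_inter
    (ov_sub hH1 hB (Sum.map (Fin.castLE (le_max_left n1 n2)) id))
    (ov_sub hH2 hB (Sum.map (Fin.castLE (le_max_right n1 n2)) id)), rfl, ⟨⟨hb, ?_⟩, ⟨hb, ?_⟩⟩, ?_⟩,
    ?_, ?_⟩
  · rw [e1]; exact hu1
  · rw [e2]; exact hu2
  · intro y hy
    exact hb' y hy.1.1
  · intro y hy
    have := hy.1.2
    rw [e1] at this
    exact this
  · intro y hy
    have := hy.2.2
    rw [e2] at this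
    exact this

/-- `u` followed by `s` -/
def fsup_seq (s : ℕ → V) {k : ℕ} (u : Fin k → V) (i : ℕ) : V :=
  if h : i < k then u ⟨i, h⟩ else s (i - k)

/-- positions -/
def fsup_pos (k n : ℕ) (i : Fin n) : Fin n ⊕ Fin k :=
  if h : (i : ℕ) < k then Sum.inr ⟨i, h⟩ else Sum.inl ⟨i - k, by omega⟩

theorem fsup_pos_eq (s : ℕ → V) {k : ℕ} (u : Fin k → V) (n : ℕ) :
    (fun i : Fin n => fsup_seq s u i) =
      (Sum.elim (fun i : Fin n => s i) u) ∘ (fsup_pos k n) := by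
  ext i
  simp only [fsup_seq, fsup_pos, Function.comp]
  split_ifs with h <;> simp

theorem fsup_type (s : ℕ → V) {k : ℕ} {u : Fin k → V} {W0 : Set (Fin k → V)}
    (hW : X.Ov (∅ : Set V) W0) (hu : u ∈ W0) (u' : Fin k → V)
    (h : ∀ W ∈ fsup_fam X s u W0, u' ∈ W) : ∃ g ∈ Fx G (Set.range s), g • u = u' := by
  obtain ⟨g, hg⟩ := X.hom (fsup_seq s u) (fsup_seq s u') (by
    intro n D1 hD1 hD1'
    have hD : X.Ov (∅ : Set V) D1 := (ov_empty_iff X).2 ⟨hD1, hD1'⟩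
    obtain ⟨B, hB, hb, hb'⟩ := fsup_box (X := X) s hW hu n
    rw [fsup_pos_eq, fsup_pos_eq]
    have hin := ov_sub hD hB (fsup_pos k n)
    have hout := ov_diff hB hin
    constructor
    · intro h1
      have := h _ ⟨n, _, hin, rfl, ⟨hb, h1⟩, fun y hy => hb' y hy.1⟩
      exact this.2
    · intro h1
      by_contra h2
      have := h _ ⟨n, _, hout, rfl, ⟨hb, fun h3 => h2 h3.2⟩, fun y hy => hb' y hy.1⟩
      exact this.2 ⟨this.1, h1⟩)
  refine ⟨g, ?_, ?_⟩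
  · rintro _ ⟨j, rfl⟩
    have := hg (k + j)
    simpa [fsup_seq] using this
  · ext i
    have := hg i
    simpa [fsup_seq] using this

end

theorem st_FSUP : ST_FSUP := by
  intro V G _ _ X A hA ι _ D hD
  rcases A.eq_empty_or_nonempty with rfl | hne
  · refine ⟨0, Fin.elim0, {x | x ∘ Sum.inr ∈ D}, ?_, ?_, ?_⟩
    · rintro _ ⟨i, _⟩
      exact i.elim0
    · have := ov_equiv hD (Equiv.emptySum (Fin 0) ι).symm
      exact this
    · ext x
      simp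
  obtain ⟨s, rfl⟩ := hA.exists_eq_range hne
  obtain ⟨k, E0, u, hE0, rfl⟩ := ov_param (X := X) hD.1
  obtain ⟨W0, hW0, hu0⟩ := ov_sort (X := X) u
  have hB' := ov_exr hE0
  -- the exceptional set
  have hDu : X.Ov (Set.univ : Set V) {x : ι → V | Sum.elim u x ∈ E0} := (ov_univ_iff X).2 hD.1
  have hW0u := ov_mono X (Set.subset_univ (∅ : Set V)) hW0
  have hE0u := ov_mono X (Set.subset_univ (∅ : Set V)) hE0
  have hB'u := ov_mono X (Set.subset_univ (∅ : Set V)) hB'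
  have hP := ov_prod hW0u hB'u
  have hPD := ov_prod hW0u hDu
  have hZ := ov_ex (ov_union (ov_diff (ov_inter hE0u hP) hPD) (ov_diff hPD hE0u))
  set Z : Set (Fin k → V) := {y : Fin k → V | ∃ x : ι → V, Sum.elim y x ∈
    ((E0 ∩ {z : Fin k ⊕ ι → V | z ∘ Sum.inl ∈ W0 ∧
      z ∘ Sum.inr ∈ {x : ι → V | ∃ y : Fin k → V, Sum.elim y x ∈ E0}}) \
      {z : Fin k ⊕ ι → V | z ∘ Sum.inl ∈ W0 ∧ z ∘ Sum.inr ∈ {x : ι → V | Sum.elim u x ∈ E0}}) ∪
    ({z : Fin k ⊕ ι → V | z ∘ Sum.inl ∈ W0 ∧ z ∘ Sum.inr ∈ {x : ι → V | Sum.elim u x ∈ E0}} \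
      E0)} with hZdef
  have hZ1 : ∀ y ∈ W0, y ∉ Z → ∀ x : ι → V, Sum.elim y x ∈ E0 ↔ Sum.elim u x ∈ E0 := by
    intro y hy hyZ x
    constructor
    · intro h1
      by_contra h2
      refine hyZ ⟨x, Or.inl ⟨⟨h1, ?_, ?_⟩, ?_⟩⟩
      · rw [Sum.elim_comp_inl]; exact hy
      · rw [Sum.elim_comp_inr]; exact ⟨y, h1⟩
      · rintro ⟨_, h3⟩
        rw [Sum.elim_comp_inr] at h3
        exact h2 h3
    · intro h1
      by_contra h2
      refine hyZ ⟨x, Or.inr ⟨⟨?_, ?_⟩, h2⟩⟩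
      · rw [Sum.elim_comp_inl]; exact hy
      · rw [Sum.elim_comp_inr]; exact h1
  have hZ2 : ∀ y ∈ Z, ¬ ∀ x : ι → V, Sum.elim y x ∈ E0 ↔ Sum.elim u x ∈ E0 := by
    rintro y ⟨x, hx⟩ hall
    rcases hx with ⟨⟨h1, h2, h3⟩, h4⟩ | ⟨⟨h1, h2⟩, h3⟩
    · refine h4 ⟨h2, ?_⟩
      rw [Sum.elim_comp_inr]
      exact (hall x).1 h1
    · rw [Sum.elim_comp_inr] at h2
      exact h3 ((hall x).2 h2)
  -- some member of the family misses it
  have key : ∃ W ∈ fsup_fam X s u W0, W ∩ Z = ∅ := by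
    by_contra hcon
    push Not at hcon
    have hfne : (fsup_fam X s u W0).Nonempty := by
      obtain ⟨B, hB, hb, hb'⟩ := fsup_box (X := X) s hW0 hu0 0
      exact ⟨_, 0, B, hB, rfl, hb, hb'⟩
    obtain ⟨F, hF⟩ := (fsup_countable (X := X) s u W0).exists_eq_range hfne
    have hFm : ∀ i, F i ∈ fsup_fam X s u W0 := fun i => by rw [hF]; exact ⟨i, rfl⟩
    have hdir : ∀ n, ∃ W ∈ fsup_fam X s u W0, ∀ i < n, W ⊆ F i := by
      intro n
      induction n with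
      | zero => exact ⟨_, hFm 0, fun i hi => absurd hi (by omega)⟩
      | succ n ih =>
        obtain ⟨W, hW, h1⟩ := ih
        obtain ⟨W', hW', h2, h3⟩ := fsup_dir s hW0 hu0 hW (hFm n)
        refine ⟨W', hW', fun i hi => ?_⟩
        rcases Nat.lt_succ_iff_lt_or_eq.1 hi with h | rfl
        · exact h2.trans (h1 i h)
        · exact h3
    obtain ⟨u', hu'⟩ := X.sat (Fin k) (fun i => F i ∩ Z) (by
      intro i
      obtain ⟨n, H, hH, he, _, _⟩ := hFm i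
      have h1 : X.Ov (Set.univ : Set V) (F i) := by
        rw [he]
        exact ov_sec' (ov_mono X (Set.subset_univ (∅ : Set V)) hH) (Set.subset_univ _)
      exact (ov_inter h1 hZ).1) (by
      intro n
      obtain ⟨W, hW, h1⟩ := hdir n
      obtain ⟨x, hx⟩ := hcon W hW
      exact ⟨x, fun i hi => ⟨h1 i hi hx.1, hx.2⟩⟩)
    obtain ⟨g, hg, hgu⟩ := fsup_type s hW0 hu0 u' (by
      intro W hW
      rw [hF] at hW
      obtain ⟨i, rfl⟩ := hW
      exact (hu' i).1)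
    refine hZ2 u' (hu' 0).2 (fun x => ?_)
    rw [← hgu]
    have e1 : Sum.elim (g • u) x = g • Sum.elim u (g⁻¹ • x) := by
      rw [smul_elim, smul_inv_smul]
    rw [e1, inv_iff hE0.2 (g := g) (by rw [fx_empty]; trivial)]
    exact inv_iff hD.2 (inv_mem hg) x
  obtain ⟨W, ⟨n, H, hH, rfl, huW, hWW⟩, hWZ⟩ := key
  refine ⟨n, fun i => s i, _, ?_, ov_comp hH hE0, ?_⟩
  · rintro _ ⟨i, rfl⟩
    exact ⟨i, rfl⟩
  · ext x
    simp only [Set.mem_ofPred_eq, Sum.elim_comp_inl, Sum.elim_comp_inr]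
    constructor
    · intro h
      exact ⟨u, huW, h⟩
    · rintro ⟨y, hy, h⟩
      have hyZ : y ∉ Z := fun h3 => by
        have : y ∈ fsup_sec s n H ∩ Z := ⟨hy, h3⟩
        rw [hWZ] at this
        exact this
      exact (hZ1 y (hWW hy) hyZ x).1 h

end Pool.Agent.Helper90.TS
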