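import Pool.Agent.Helper90.TS.Stmts

/-!
# TS: module TREE, no binary tree of definable sets
-/

set_option autoImplicit false

namespace Pool.Agent.Helper90.TS

/-- initial segments, as lists -/
def tree_pre (η : ℕ → Bool) : ℕ → List Bool
  | 0 => []
  | (n + 1) => η n :: tree_pre η n

theorem tree_pre_congr (η ν : ℕ → Bool) (n : ℕ) (h : ∀ i < n, η i = ν i) :
    tree_pre η n = tree_pre ν n := by
  induction n with
  | zero => rfl
  | succ n ih =>
    simp only [tree_pre]
    rw [h n (by omega), ih (fun i hi => h i (by omega))]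

theorem tree_not_countable (f : (ℕ → Bool) → ℕ) (hf : Function.Injective f) : False := by
  classical
  refine Function.cantor_injective (fun s : Set ℕ => f (fun n => decide (n ∈ s))) ?_
  intro s t hst
  have := hf hst
  ext n
  have h := congrFun this n
  simpa using h

theorem st_TREE : ST_TREE := by
  classical
  intro V G _ _ X ι _ P hP D0 hD0
  have hP' : ∀ D : {D : Set (ι → V) // P D}, ∃ EF : {D : Set (ι → V) // P D} ×
      {D : Set (ι → V) // P D}, EF.1.1 ⊆ D.1 ∧ EF.2.1 ⊆ D.1 ∧ Disjoint EF.1.1 EF.2.1 := by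
    rintro ⟨D, hD⟩
    obtain ⟨_, _, E, F, h1, h2, h3, h4, h5⟩ := hP D hD
    exact ⟨⟨⟨E, h4⟩, ⟨F, h5⟩⟩, h1, h2, h3⟩
  choose EF h1 h2 h3 using hP'
  let T : List Bool → {D : Set (ι → V) // P D} := fun l =>
    List.rec ⟨D0, hD0⟩ (fun b _ D => if b then (EF D).1 else (EF D).2) l
  have hTc : ∀ b l, T (b :: l) = if b then (EF (T l)).1 else (EF (T l)).2 := fun b l => rfl
  have hTs : ∀ b l, (T (b :: l)).1 ⊆ (T l).1 := by
    intro b l
    rw [hTc]
    cases b
    · exact h2 _
    · exact h1 _
  have hTd : ∀ b c l x, x ∈ (T (b :: l)).1 → x ∈ (T (c :: l)).1 → b = c := by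
    intro b c l x hb hc
    rw [hTc] at hb hc
    by_contra hbc
    cases b <;> cases c
    · exact hbc rfl
    · exact Set.disjoint_left.1 (h3 (T l)) hc hb
    · exact Set.disjoint_left.1 (h3 (T l)) hb hc
    · exact hbc rfl
  have hdf : ∀ l : List Bool, ∃ (m : ℕ) (E : Set (Fin m ⊕ ι → V)) (u : Fin m → V),
      X.Ov (∅ : Set V) E ∧ (T l).1 = {x | Sum.elim u x ∈ E} := fun l =>
    ov_param (X := X) (hP _ (T l).2).1
  choose m E u hE hTE using hdf
  have hAc : (⋃ l, Set.range (u l)).Countable :=
    Set.countable_iUnion fun l => Set.countable_range _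
  have hov : ∀ l, X.Ov (⋃ l, Set.range (u l)) (T l).1 := by
    intro l
    rw [hTE]
    exact ov_sec' (ov_mono X (Set.empty_subset _) (hE l)) (Set.subset_iUnion_of_subset l
      Set.Subset.rfl)
  have hx : ∀ η : ℕ → Bool, ∃ x, ∀ n, x ∈ (T (tree_pre η n)).1 := by
    intro η
    refine X.sat ι (fun n => (T (tree_pre η n)).1) (fun n => (hov _).1) (fun k => ?_)
    obtain ⟨x, hx⟩ := (hP _ (T (tree_pre η k)).2).2.1
    have hdec : ∀ j ≤ k, x ∈ (T (tree_pre η (k - j))).1 := by
      intro j
      induction j with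
      | zero => intro _; exact hx
      | succ j ih =>
        intro hj
        have := ih (by omega)
        have e : k - j = (k - (j + 1)) + 1 := by omega
        rw [e] at this
        exact hTs _ _ this
    refine ⟨x, fun i hi => ?_⟩
    have := hdec (k - i) (by omega)
    have e : k - (k - i) = i := by omega
    rwa [e] at this
  choose x hx using hx
  obtain ⟨n, ⟨e⟩⟩ := Finite.exists_equiv_fin ι
  obtain ⟨S, hSc, hS⟩ := X.ost _ hAc n
  choose y hy using fun η : ℕ → Bool => hS (x η ∘ e.symm)
  have hinj : Function.Injective (fun η => (⟨y η, (hy η).1⟩ : S)) := by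
    intro η ν hyy
    have hyy' : y η = y ν := congrArg Subtype.val hyy
    by_contra hne
    have hex : ∃ n, η n ≠ ν n := by
      by_contra hcon
      push Not at hcon
      exact hne (funext hcon)
    have hn := Nat.find_spec hex
    have hn' : ∀ i < Nat.find hex, η i = ν i := fun i hi => by
      by_contra h
      exact Nat.find_min hex hi h
    have hl := tree_pre_congr η ν _ hn'
    have key : ∀ ξ : ℕ → Bool, y ξ ∘ e ∈ (T (tree_pre ξ (Nat.find hex + 1))).1 := by
      intro ξ
      obtain ⟨g, hg, hgy⟩ := (hy ξ).2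
      have e1 : g • (y ξ ∘ e) = x ξ := by
        have : g • (y ξ ∘ e) = (g • y ξ) ∘ e := rfl
        rw [this, hgy]
        ext i
        simp
      rw [← inv_iff (hov _).2 hg, e1]
      exact hx ξ (Nat.find hex + 1)
    have k1 := key η
    have k2 := key ν
    rw [← hyy'] at k2
    simp only [tree_pre] at k1 k2
    rw [← hl] at k2
    exact hn (hTd _ _ _ _ k1 k2)
  have : Countable S := hSc.to_subtype
  obtain ⟨f, hf⟩ := this.exists_injective_nat
  exact tree_not_countable _ (hf.comp hinj)

end Pool.Agent.Helper90.TS
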